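import Pool.Agent.Results.MP_c57e60_co.Unbounded

set_option autoImplicit false

/-! The complete graph on five vertices decomposes into two cycles. -/

namespace Pool.Agent.Y426.SCC

open Pool.Agent.Results.MP_c57e60_co.Unbounded (ThreeConnected IsCycleCover coverLength
  IsShortestCover mult maxMult tSCC mult_le_max)
open SimpleGraph

abbrev K5 : SimpleGraph (Fin 5) := ⊤

lemma ne_adj {a b : Fin 5} (h : a ≠ b) : K5.Adj a b := h

def w1 : K5.Walk 0 0 :=
  .cons (ne_adj (by decide : (0 : Fin 5) ≠ 1)) (.cons (ne_adj (by decide : (1 : Fin 5) ≠ 2))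
    (.cons (ne_adj (by decide : (2 : Fin 5) ≠ 3)) (.cons (ne_adj (by decide : (3 : Fin 5) ≠ 4))
      (.cons (ne_adj (by decide : (4 : Fin 5) ≠ 0)) .nil))))

def w2 : K5.Walk 0 0 :=
  .cons (ne_adj (by decide : (0 : Fin 5) ≠ 2)) (.cons (ne_adj (by decide : (2 : Fin 5) ≠ 4))
    (.cons (ne_adj (by decide : (4 : Fin 5) ≠ 1)) (.cons (ne_adj (by decide : (1 : Fin 5) ≠ 3))
      (.cons (ne_adj (by decide : (3 : Fin 5) ≠ 0)) .nil))))

lemma w1_edges : w1.edges = [s(0, 1), s(1, 2), s(2, 3), s(3, 4), s(4, 0)] := rfl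
lemma w2_edges : w2.edges = [s(0, 2), s(2, 4), s(4, 1), s(1, 3), s(3, 0)] := rfl

lemma w1_cycle : w1.IsCycle := by
  rw [Walk.isCycle_def]
  refine ⟨⟨by rw [w1_edges]; decide⟩, ?_, ?_⟩
  · intro h
    have := congrArg Walk.length h
    exact absurd this (by decide)
  · show [1, 2, 3, 4, (0 : Fin 5)].Nodup
    decide

lemma w2_cycle : w2.IsCycle := by
  rw [Walk.isCycle_def]
  refine ⟨⟨by rw [w2_edges]; decide⟩, ?_, ?_⟩
  · intro h
    have := congrArg Walk.length h
    exact absurd this (by decide)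
  · show [2, 4, 1, 3, (0 : Fin 5)].Nodup
    decide

def cov : List (Σ u : Fin 5, K5.Walk u u) := [⟨0, w1⟩, ⟨0, w2⟩]

lemma cov_edges : ∀ a b : Fin 5, a ≠ b → s(a, b) ∈ w1.edges ∨ s(a, b) ∈ w2.edges := by
  rw [w1_edges, w2_edges]
  decide

lemma cov_once : ∀ a b : Fin 5, ¬ (s(a, b) ∈ w1.edges ∧ s(a, b) ∈ w2.edges) := by
  rw [w1_edges, w2_edges]
  decide

lemma cov_cover : IsCycleCover K5 cov := by
  constructor
  · intro C hC
    unfold cov at hC
    simp only [List.mem_cons, List.not_mem_nil, or_false] at hC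
    rcases hC with rfl | rfl
    · exact w1_cycle
    · exact w2_cycle
  · intro e he
    induction e with
    | _ a b =>
      rcases cov_edges a b he with h | h
      · exact ⟨⟨0, w1⟩, by simp [cov], h⟩
      · exact ⟨⟨0, w2⟩, by simp [cov], h⟩

lemma cov_length : coverLength cov = 10 := rfl

lemma cover_ge (F : List (Σ u : Fin 5, K5.Walk u u)) (hF : IsCycleCover K5 F) :
    10 ≤ coverLength F := by
  classical
  have h1 : K5.edgeFinset ⊆ (F.flatMap (fun C => C.2.edges)).toFinset := by
    intro e he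
    rw [List.mem_toFinset, List.mem_flatMap]
    exact hF.2 e (by simpa using he)
  have h2 := Finset.card_le_card h1
  have h3 := List.toFinset_card_le (F.flatMap (fun C => C.2.edges))
  have h4 : K5.edgeFinset.card = 10 := by
    have := SimpleGraph.card_edgeFinset_top_eq_card_choose_two (V := Fin 5)
    rw [Fintype.card_fin] at this
    have h5 : Nat.choose 5 2 = 10 := by decide
    rw [h5] at this
    convert this
  have h5 : (F.flatMap (fun C => C.2.edges)).length = coverLength F := by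
    rw [List.length_flatMap]
    unfold coverLength
    congr 1
    apply List.map_congr_left
    intro C _
    exact C.2.length_edges
  omega

lemma cov_short : IsShortestCover K5 cov :=
  ⟨cov_cover, fun F' hF' => by rw [cov_length]; exact cover_ge F' hF'⟩

lemma cov_max : maxMult cov ≤ 1 := by
  unfold maxMult
  have : Nonempty K5.edgeSet := ⟨⟨s(0, 1), ne_adj (by decide)⟩⟩
  refine ciSup_le ?_
  rintro ⟨e, he⟩
  induction e with
  | _ a b =>
    have h1 := cov_once a b
    unfold mult cov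
    rw [List.countP_cons, List.countP_cons, List.countP_nil]
    by_cases h2 : s(a, b) ∈ w1.edges
    · have h3 : s(a, b) ∉ w2.edges := fun h3 => h1 ⟨h2, h3⟩
      simp [h2, h3]
    · by_cases h3 : s(a, b) ∈ w2.edges <;> simp [h2, h3]

lemma mult_pos {V : Type} [DecidableEq V] {G : SimpleGraph V} (F : List (Σ u : V, G.Walk u u))
    (hF : IsCycleCover G F) (e : Sym2 V) (he : e ∈ G.edgeSet) : 1 ≤ mult F e := by
  obtain ⟨C, hC, hCe⟩ := hF.2 e he
  exact List.countP_pos_iff.2 ⟨C, hC, by simpa using hCe⟩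

lemma tSCC_K5 : tSCC K5 = 1 := by
  apply le_antisymm
  · exact (Nat.sInf_le ⟨cov, cov_short, rfl⟩ : tSCC K5 ≤ maxMult cov).trans cov_max
  · have hmem : tSCC K5 ∈ {t : ℕ | ∃ F : List (Σ u : Fin 5, K5.Walk u u),
        IsShortestCover K5 F ∧ maxMult F = t} := Nat.sInf_mem ⟨_, cov, cov_short, rfl⟩
    obtain ⟨F, hF1, hF2⟩ := hmem
    have h1 := mult_pos F hF1.1 s(0, 1) (ne_adj (by decide))
    have h2 := mult_le_max F s(0, 1) (ne_adj (by decide))
    omega

lemma three_K5 : ThreeConnected K5 := by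
  refine ⟨by rw [Fintype.card_fin]; norm_num, fun S hS => ?_⟩
  have hex : ∃ x, x ∉ S := by
    by_contra hcon
    push Not at hcon
    have : S = Finset.univ := Finset.eq_univ_iff_forall.2 hcon
    rw [this, Finset.card_univ, Fintype.card_fin] at hS
    omega
  obtain ⟨x, hx⟩ := hex
  have : Nonempty ↑((↑S : Set (Fin 5))ᶜ) := ⟨⟨x, by simpa using hx⟩⟩
  refine ⟨fun u v => ?_⟩
  by_cases h : u = v
  · rw [h]
  · have hadj : (K5.induce ((↑S : Set (Fin 5))ᶜ)).Adj u v := by
      show K5.Adj u.1 v.1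
      exact fun h' => h (Subtype.ext h')
    exact hadj.reachable

lemma deg_K5 (v : Fin 5) : (K5.neighborSet v).ncard = 4 := by
  have h1 : K5.neighborSet v = ((Finset.univ.erase v : Finset (Fin 5)) : Set (Fin 5)) := by
    ext w
    simp [eq_comm]
  rw [h1, Set.ncard_coe_finset, Finset.card_erase_of_mem (Finset.mem_univ _), Finset.card_univ,
    Fintype.card_fin]

end Pool.Agent.Y426.SCC
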