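import Pool.Agent.Helper398.SccG

set_option autoImplicit false

/-! Degrees and number of vertices of the gadgets. -/

namespace Pool.Agent.Y426.SCC

open Finset Pool.Agent.Helper398.SccA Pool.Agent.Helper398.SccB Pool.Agent.Helper398.SccC
  Pool.Agent.Helper398.SccD Pool.Agent.Helper398.SccE Pool.Agent.Helper398.SccF

/-- The degree of a vertex of a pole, dangling edges included. -/
def dg (A : Pole) (v : A.V) : ℕ :=
  ∑ e, ((if A.src e = v then 1 else 0) + (if A.tgt e = v then 1 else 0)) +
    ∑ j, (if A.t j = v then 1 else 0)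

lemma dg_triv (v : triv.V) : dg triv v = 3 := by
  unfold dg
  have h1 : ∑ e : triv.E, ((if triv.src e = v then 1 else 0) + (if triv.tgt e = v then 1 else 0))
      = 0 := by
    apply Finset.sum_eq_zero
    intro e
    exact Empty.elim e
  have h2 : ∀ j, (if triv.t j = v then 1 else 0) = 1 := by
    intro j
    rw [if_pos]
    rfl
  rw [h1, Finset.sum_congr rfl (fun j _ => h2 j)]
  rfl

lemma dg_G2 (v : G2.V) : 3 ≤ dg G2 v ∧ dg G2 v ≤ 4 := by
  have h : ∀ v : Fin 5, 3 ≤ (∑ e : Fin 8, ((if (![3, 3, 3, 3, 4, 4, 4, 1] : Fin 8 → Fin 5) e = v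
      then 1 else 0) + (if (![0, 1, 2, 4, 0, 1, 2, 2] : Fin 8 → Fin 5) e = v then 1 else 0)) +
      ∑ j : Fin 3, (if (![0, 1, 2] : Fin 3 → Fin 5) j = v then 1 else 0)) ∧
      (∑ e : Fin 8, ((if (![3, 3, 3, 3, 4, 4, 4, 1] : Fin 8 → Fin 5) e = v
      then 1 else 0) + (if (![0, 1, 2, 4, 0, 1, 2, 2] : Fin 8 → Fin 5) e = v then 1 else 0)) +
      ∑ j : Fin 3, (if (![0, 1, 2] : Fin 3 → Fin 5) j = v then 1 else 0)) ≤ 4 := by
    decide
  exact h v

/-- The indicator of one vertex. -/
def one (A : Fin 9 → Pole) (i : Fin 9) (v : (A i).V) (z : Σ i, (A i).V) : ℕ :=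
  if z = ⟨i, v⟩ then 1 else 0

lemma one_same (A : Fin 9 → Pole) (i : Fin 9) (v w : (A i).V) :
    one A i v ⟨i, w⟩ = if w = v then 1 else 0 := by
  unfold one
  by_cases h : w = v
  · rw [if_pos h, if_pos (by rw [h])]
  · rw [if_neg h, if_neg]
    intro h'
    simp only [Sigma.mk.injEq, heq_eq_eq, true_and] at h'
    exact h h'

lemma one_ne (A : Fin 9 → Pole) (i i' : Fin 9) (v : (A i).V) (w : (A i').V) (h : i' ≠ i) :
    one A i v ⟨i', w⟩ = 0 := by
  unfold one
  rw [if_neg]
  intro h'
  exact h (congrArg Sigma.fst h')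

lemma dg_sub (A : Fin 9 → Pole) (i : Fin 9) (v : (A i).V) :
    dg (Sub A) ⟨i, v⟩ = dg (A i) v := by
  have h1 := host_sum (fun _ => (1 : ℕ)) (fun p => one A i v ⟨p.1, (A p.1).t p.2⟩)
  simp only [one_mul] at h1
  have h2 : ∑ e : (Sub A).E, (one A i v ((Sub A).src e) + one A i v ((Sub A).tgt e))
      = ∑ k : Fin 12, (one A i v ⟨(s1 k).1, (A (s1 k).1).t (s1 k).2⟩ +
          one A i v ⟨(s2 k).1, (A (s2 k).1).t (s2 k).2⟩) +
        ∑ i', ∑ e : (A i').E, (one A i v ⟨i', (A i').src e⟩ + one A i v ⟨i', (A i').tgt e⟩) := by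
    have h3 : ∀ g : (Fin 12 ⊕ Σ i, (A i).E) → ℕ,
        ∑ x, g x = ∑ k : Fin 12, g (Sum.inl k) + ∑ i, ∑ e : (A i).E, g (Sum.inr ⟨i, e⟩) := by
      intro g
      rw [Fintype.sum_sum_type, Fintype.sum_sigma]
    exact h3 _
  have h4 : ∑ j, one A i v ((Sub A).t j) = ∑ j, one A i v ⟨(rt j).1, (A (rt j).1).t (rt j).2⟩ :=
    rfl
  have h5 : ∑ i', ∑ j, one A i v ⟨i', (A i').t j⟩ = ∑ j, (if (A i).t j = v then 1 else 0) := by
    rw [Finset.sum_eq_single i]
    · apply Finset.sum_congr rfl
      intro j _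
      rw [one_same]
    · intro i' _ hi'
      apply Finset.sum_eq_zero
      intro j _
      rw [one_ne A i i' v _ hi']
    · intro h
      exact absurd (Finset.mem_univ i) h
  have h6 : ∑ i', ∑ e : (A i').E, (one A i v ⟨i', (A i').src e⟩ + one A i v ⟨i', (A i').tgt e⟩) =
      ∑ e, ((if (A i).src e = v then 1 else 0) + (if (A i).tgt e = v then 1 else 0)) := by
    rw [Finset.sum_eq_single i]
    · apply Finset.sum_congr rfl
      intro j _
      rw [one_same, one_same]
    · intro i' _ hi'
      apply Finset.sum_eq_zero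
      intro j _
      rw [one_ne A i i' v _ hi', one_ne A i i' v _ hi', add_zero]
    · intro h
      exact absurd (Finset.mem_univ i) h
  have h7 : dg (Sub A) ⟨i, v⟩ = ∑ e : (Sub A).E, (one A i v ((Sub A).src e) +
      one A i v ((Sub A).tgt e)) + ∑ j, one A i v ((Sub A).t j) := rfl
  rw [h7, h2, h4, h6]
  unfold dg
  rw [h5] at h1
  rw [← h1]
  ring

/-- All degrees are three or four. -/
def Deg34 (A : Pole) : Prop := ∀ v, 3 ≤ dg A v ∧ dg A v ≤ 4

lemma deg34_triv : Deg34 triv := fun v => by rw [dg_triv v]; omega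

lemma deg34_chain {G : Pole} (hG : Deg34 G) (m : ℕ) : Deg34 (chain G m) := by
  induction m with
  | zero => exact deg34_triv
  | succ m ih =>
    rintro ⟨i, v⟩
    have h := dg_sub (hostPoles (chain G m) G) i v
    have h' : dg (chain G (m + 1)) ⟨i, v⟩ = dg (hostPoles (chain G m) G i) v := h
    rw [h']
    have hi : i = 0 ∨ i = 1 ∨ i = 2 ∨ i = 3 ∨ i = 4 ∨ i = 5 ∨ i = 6 ∨ i = 7 ∨ i = 8 := by
      clear h h' v
      revert i; decide
    rcases hi with rfl | rfl | rfl | rfl | rfl | rfl | rfl | rfl | rfl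
    · exact ih v
    · exact deg34_triv v
    · exact deg34_triv v
    · exact deg34_triv v
    · exact hG v
    · exact hG v
    · exact hG v
    · exact hG v
    · exact dg_G2 v

theorem deg34_GG (R : ℕ) (d : ℕ) : Deg34 (GG R d) := by
  induction d with
  | zero => exact dg_G2
  | succ d ih => exact deg34_chain ih R

/-! ### Number of vertices -/

lemma card_chain (G : Pole) (m : ℕ) :
    Fintype.card (chain G m).V = 1 + m * (4 * Fintype.card G.V + 8) := by
  induction m with
  | zero =>
    have h : Fintype.card Unit = 1 := rfl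
    rw [zero_mul, add_zero]
    exact h
  | succ m ih =>
    have h1 : Fintype.card (chain G (m + 1)).V =
        ∑ i, Fintype.card (hostPoles (chain G m) G i).V := by
      have h2 : Fintype.card (Σ i, (hostPoles (chain G m) G i).V) =
        ∑ i, Fintype.card (hostPoles (chain G m) G i).V := Fintype.card_sigma
      exact h2
    have h3 : ∀ g : Fin 9 → ℕ, ∑ i, g i
        = g 0 + (g 1 + g 2 + g 3 + g 4 + g 5 + g 6 + g 7 + g 8) := by
      intro g
      simp only [Fin.sum_univ_succ, Fin.sum_univ_zero]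
      simp
      ring
    rw [h1, h3]
    have e0 : Fintype.card (hostPoles (chain G m) G 0).V = Fintype.card (chain G m).V := rfl
    have e1 : Fintype.card (hostPoles (chain G m) G 1).V = 1 := rfl
    have e2 : Fintype.card (hostPoles (chain G m) G 2).V = 1 := rfl
    have e3 : Fintype.card (hostPoles (chain G m) G 3).V = 1 := rfl
    have e4 : Fintype.card (hostPoles (chain G m) G 4).V = Fintype.card G.V := rfl
    have e5 : Fintype.card (hostPoles (chain G m) G 5).V = Fintype.card G.V := rfl
    have e6 : Fintype.card (hostPoles (chain G m) G 6).V = Fintype.card G.V := rfl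
    have e7 : Fintype.card (hostPoles (chain G m) G 7).V = Fintype.card G.V := rfl
    have e8 : Fintype.card (hostPoles (chain G m) G 8).V = 5 := rfl
    rw [e0, e1, e2, e3, e4, e5, e6, e7, e8, ih]
    ring

lemma card_GG (R : ℕ) (hR : 1 ≤ R) : ∀ d, 5 ≤ Fintype.card (GG R d).V ∧
    Fintype.card (GG R d).V + 1 ≤ 6 * (6 * R) ^ d := by
  intro d
  induction d with
  | zero =>
    have h : Fintype.card (GG R 0).V = 5 := rfl
    rw [h]
    norm_num
  | succ d ih =>
    have h : Fintype.card (GG R (d + 1)).V = 1 + R * (4 * Fintype.card (GG R d).V + 8) :=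
      card_chain _ _
    rw [h]
    obtain ⟨h1, h2⟩ := ih
    generalize Fintype.card (GG R d).V = n at *
    constructor
    · nlinarith
    · have h3 : 6 * (6 * R) ^ (d + 1) = 6 * R * (6 * (6 * R) ^ d) := by ring
      rw [h3]
      have h4 : 6 * R * (n + 1) ≤ 6 * R * (6 * (6 * R) ^ d) := Nat.mul_le_mul_left _ h2
      have h5 : 1 + R * (4 * n + 8) + 1 ≤ 6 * R * (n + 1) := by
        nlinarith
      exact h5.trans h4

/-! ### Degrees of the closed graph -/

lemma ncard_nbr {A : Pole} (hS : Simp A) (ht : Function.Injective A.t) (u : Option A.V) :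
    ((gr A).neighborSet u).ncard = (univ.filter (fun x => u ∈ ed A x)).card := by
  classical
  have h1 : ((gr A).neighborSet u).ncard = ((gr A).incidenceSet u).ncard := by
    rw [← Nat.card_coe_set_eq, ← Nat.card_coe_set_eq]
    exact Nat.card_congr ((gr A).incidenceSetEquivNeighborSet u).symm
  have h2 : (gr A).incidenceSet u = ((univ.filter (fun x => u ∈ ed A x)).image (ed A) :
      Finset (Sym2 (Option A.V))) := by
    ext e
    rw [Finset.coe_image, Set.mem_image]
    constructor
    · rintro ⟨he, hu⟩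
      obtain ⟨x, rfl⟩ := (mem_edgeSet hS e).1 he
      exact ⟨x, by simpa using hu, rfl⟩
    · rintro ⟨x, hx, rfl⟩
      exact ⟨(mem_edgeSet hS _).2 ⟨x, rfl⟩, by simpa using hx⟩
  rw [h1, h2, Set.ncard_coe_finset, Finset.card_image_of_injective _ (ed_inj hS ht)]

lemma deg_some {A : Pole} (hS : Simp A) (ht : Function.Injective A.t) (v : A.V) :
    ((gr A).neighborSet (some v)).ncard = dg A v := by
  rw [ncard_nbr hS ht, Finset.card_filter, sum_split]
  unfold dg
  congr 1
  · apply Finset.sum_congr rfl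
    intro e _
    have h : (some v ∈ ed A (Sum.inl e)) ↔ (A.src e = v ∨ A.tgt e = v) := by
      show some v ∈ s(some (A.src e), some (A.tgt e)) ↔ _
      rw [Sym2.mem_iff]
      constructor
      · rintro (h | h)
        · exact Or.inl (Option.some.inj h).symm
        · exact Or.inr (Option.some.inj h).symm
      · rintro (h | h)
        · exact Or.inl (by rw [h])
        · exact Or.inr (by rw [h])
    have hne := hS.1 e
    by_cases h1 : A.src e = v
    · have h2 : A.tgt e ≠ v := fun h2 => hne (h1.trans h2.symm)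
      rw [if_pos (h.2 (Or.inl h1)), if_pos h1, if_neg h2]
    · by_cases h2 : A.tgt e = v
      · rw [if_pos (h.2 (Or.inr h2)), if_neg h1, if_pos h2]
      · rw [if_neg (fun h3 => (h.1 h3).elim h1 h2), if_neg h1, if_neg h2]
  · apply Finset.sum_congr rfl
    intro j _
    have h : (some v ∈ ed A (Sum.inr j)) ↔ (A.t j = v) := by
      show some v ∈ s(some (A.t j), none) ↔ _
      rw [Sym2.mem_iff]
      constructor
      · rintro (h | h)
        · exact (Option.some.inj h).symm
        · exact absurd h (Option.some_ne_none _)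
      · intro h
        exact Or.inl (by rw [h])
    by_cases h1 : A.t j = v
    · rw [if_pos (h.2 h1), if_pos h1]
    · rw [if_neg (fun h3 => h1 (h.1 h3)), if_neg h1]

lemma deg_none {A : Pole} (hS : Simp A) (ht : Function.Injective A.t) :
    ((gr A).neighborSet none).ncard = 3 := by
  rw [ncard_nbr hS ht, Finset.card_filter, sum_split]
  have h1 : ∀ e : A.E, (if (none : Option A.V) ∈ ed A (Sum.inl e) then 1 else 0) = 0 := by
    intro e
    rw [if_neg]
    show ¬ (none ∈ s(some (A.src e), some (A.tgt e)))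
    rw [Sym2.mem_iff]
    rintro (h | h)
    · exact Option.some_ne_none _ h.symm
    · exact Option.some_ne_none _ h.symm
  have h2 : ∀ j : Fin 3, (if (none : Option A.V) ∈ ed A (Sum.inr j) then 1 else 0) = 1 := by
    intro j
    rw [if_pos]
    show none ∈ s(some (A.t j), none)
    rw [Sym2.mem_iff]
    exact Or.inr rfl
  rw [Finset.sum_congr rfl (fun e _ => h1 e), Finset.sum_congr rfl (fun j _ => h2 j)]
  simp

lemma deg_gr {A : Pole} (hS : Simp A) (ht : Function.Injective A.t) (hA : Deg34 A)
    (u : Option A.V) : ((gr A).neighborSet u).ncard = 3 ∨ ((gr A).neighborSet u).ncard = 4 := by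
  rcases u with _ | v
  · exact Or.inl (deg_none hS ht)
  · rw [deg_some hS ht]
    have := hA v
    omega

end Pool.Agent.Y426.SCC
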