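import Pool.Agent.Helper398.SccG

set_option autoImplicit false

/-! Covering families of minimum cost in which no edge is covered too often. -/

namespace Pool.Agent.Y426.SCC

open Finset Pool.Agent.Helper398.SccA Pool.Agent.Helper398.SccB Pool.Agent.Helper398.SccC

/-- As `UB`, with every internal edge covered at most `M` times. -/
def UM (A : Pole) (x y z B M : ℕ) : Prop :=
  ∃ n0 : ℕ, ∀ n, n0 ≤ n → ∃ (c : Fin n → A.E → ZMod 2) (r : Fin n → Fin 3 → ZMod 2),
    IsCov A c r ∧ wt (fun a => r a 0) = x ∧ wt (fun a => r a 1) = y ∧ wt (fun a => r a 2) = z ∧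
    cost A c r = B ∧ ∀ e, wt (fun a => c a e) ≤ M

lemma UM.mono {A : Pole} {x y z B M M' : ℕ} (h : UM A x y z B M) (hM : M ≤ M') :
    UM A x y z B M' := by
  obtain ⟨n0, hn0⟩ := h
  refine ⟨n0, fun n hn => ?_⟩
  obtain ⟨c, r, h1, h2, h3, h4, h5, h6⟩ := hn0 n hn
  exact ⟨c, r, h1, h2, h3, h4, h5, fun e => (h6 e).trans hM⟩

lemma UM_triv (M p q s : ℕ) (h1 : 1 ≤ p + q) (h2 : 1 ≤ p + s) (h3 : 1 ≤ q + s) :
    UM triv (p + q) (p + s) (q + s) (2 * (p + q + s)) M := by
  obtain ⟨n0, hn0⟩ := UB_triv p q s h1 h2 h3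
  refine ⟨n0, fun n hn => ?_⟩
  obtain ⟨c, r, h1, h2, h3, h4, h5⟩ := hn0 n hn
  exact ⟨c, r, h1, h2, h3, h4, h5, fun e => Empty.elim e⟩

lemma UM_G2 : UM G2 2 1 1 20 1 := by
  obtain ⟨n0, hn0⟩ := UB_G2
  refine ⟨n0, fun n hn => ?_⟩
  obtain ⟨c, r, h1, h2, h3, h4, h5⟩ := hn0 n hn
  refine ⟨c, r, h1, h2, h3, h4, h5, fun e => ?_⟩
  have h6 : 2 * ∑ e, wt (fun a => c a e) + (wt (fun a => r a 0) + wt (fun a => r a 1) +
      wt (fun a => r a 2)) = 20 := by
    rw [← h5]
    unfold cost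
    rw [Fin.sum_univ_three]
  rw [h2, h3, h4] at h6
  have h7 : ∑ e : Fin 8, wt (fun a => c a e) = 8 := by
    have h8 : 2 * ∑ e : Fin 8, wt (fun a => c a e) + (2 + 1 + 1) = 20 := h6
    omega
  have pos : ∀ e : Fin 8, 1 ≤ wt (fun a => c a e) := h1.posE
  rw [Fin.sum_univ_eight] at h7
  have p0 := pos 0
  have p1 := pos 1
  have p2 := pos 2
  have p3 := pos 3
  have p4 := pos 4
  have p5 := pos 5
  have p6 := pos 6
  have p7 := pos 7
  have key : ∀ e : Fin 8, wt (fun a => c a e) ≤ 1 := by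
    intro e
    have he : e = 0 ∨ e = 1 ∨ e = 2 ∨ e = 3 ∨ e = 4 ∨ e = 5 ∨ e = 6 ∨ e = 7 := by
      revert e; decide
    rcases he with rfl | rfl | rfl | rfl | rfl | rfl | rfl | rfl <;> omega
  exact key e

lemma UM_sub (A : Fin 9 → Pole) (W : Fin 12 ⊕ Fin 3 → ℕ) (hpos : ∀ k, 1 ≤ W k) (M : ℕ)
    (hM : ∀ k, W (Sum.inl k) ≤ M) (hW : HostFam W) (Bs : Fin 9 → ℕ)
    (hA : ∀ i, UM (A i) (W (eta i 0)) (W (eta i 1)) (W (eta i 2)) (Bs i) M) :
    UM (Sub A) (W (Sum.inr 0)) (W (Sum.inr 1)) (W (Sum.inr 2)) (∑ i, Bs i) M := by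
  obtain ⟨n0, hn0⟩ := hW
  choose ni hni using hA
  refine ⟨n0 + ∑ i, ni i, fun n hn => ?_⟩
  obtain ⟨h, hev, hwt⟩ := hn0 n (by omega)
  have hle : ∀ i, ni i ≤ n := fun i =>
    le_trans (Finset.single_le_sum (f := ni) (fun _ _ => Nat.zero_le _) (mem_univ i)) (by omega)
  choose c r hcov h0 h1 h2 hcost hmax using fun i => hni i n (hle i)
  have hm : ∀ i, ∃ σ : Equiv.Perm (Fin n), ∀ a, r i (σ a) = fun j => h a (eta i j) := by
    intro i
    apply matching (fun a j => h a (eta i j)) (r i) (fun a => hev a i)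
      (fun a => root_sum ((hcov i).even a))
    intro j
    have hj : j = 0 ∨ j = 1 ∨ j = 2 := by revert j; decide
    rcases hj with rfl | rfl | rfl
    · rw [h0, ← hwt]
    · rw [h1, ← hwt]
    · rw [h2, ← hwt]
  choose σ hσ using hm
  have hhv : ∀ a, hv (A := A) (Sum.elim (fun k => h a (Sum.inl k)) (fun p => c p.1 (σ p.1 a) p.2))
      (fun j => h a (Sum.inr j)) = h a := by
    intro a
    funext k
    rcases k with k | k <;> rfl
  refine ⟨fun a => Sum.elim (fun k => h a (Sum.inl k)) (fun p => c p.1 (σ p.1 a) p.2),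
    fun a j => h a (Sum.inr j), ⟨?_, ?_, ?_⟩, hwt _, hwt _, hwt _, ?_, ?_⟩
  · intro a
    refine (even_sub A _ _).2 (fun i => ?_)
    have := (hcov i).even (σ i a)
    rw [hσ i a] at this
    rw [hhv a]
    exact this
  · rintro (k | ⟨i, e⟩)
    · exact (hwt (Sum.inl k)).symm ▸ hpos _
    · have := (hcov i).posE e
      rw [← wt_equiv (σ i) (fun a => c i a e)] at this
      exact this
  · intro j
    exact (hwt (Sum.inr j)).symm ▸ hpos _
  · have e1 := cost_sub A (fun a => Sum.elim (fun k => h a (Sum.inl k))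
      (fun p => c p.1 (σ p.1 a) p.2)) (fun a j => h a (Sum.inr j))
    refine e1.trans (Finset.sum_congr rfl (fun i _ => ?_))
    rw [← hcost i, ← cost_equiv (σ i) (A i) (c i) (r i)]
    congr 1
    funext a
    rw [hσ i a, hhv a]
  · rintro (k | ⟨i, e⟩)
    · exact (hwt (Sum.inl k)).symm ▸ hM _
    · have := hmax i e
      rw [← wt_equiv (σ i) (fun a => c i a e)] at this
      exact this

lemma UM_chain {G : Pole} {N B : ℕ} (hG : UM G (N + 2) (N + 1) 1 B (N + 2)) : ∀ m : ℕ,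
    UM (chain G m) (N + 3) (N + 2) 1 (m * (4 * B + 4 * (N + 2) + 24) + 2 * (N + 3)) (N + 3) := by
  intro m
  induction m with
  | zero =>
    have h1 := UM_triv (N + 3) (N + 2) 1 0 (by omega) (by omega) (by omega)
    have e : 2 * (N + 2 + 1 + 0) = 0 * (4 * B + 4 * (N + 2) + 24) + 2 * (N + 3) := by ring
    rw [e] at h1
    exact h1
  | succ m ih =>
    have h1 := UM_sub (hostPoles (chain G m) G) (hostW N) (by
        intro k
        rcases k with k | k <;> fin_cases k <;> simp [hostW]) (N + 3) (by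
        intro k
        fin_cases k <;> simp [hostW]) (hostFam N)
      (![m * (4 * B + 4 * (N + 2) + 24) + 2 * (N + 3), 2 * (N + 1 + 1 + 0), 2 * (N + 1 + 1 + 0),
        2 * (1 + 1 + 0), B, B, B, B, 20]) (by
        intro i
        have hi : i = 0 ∨ i = 1 ∨ i = 2 ∨ i = 3 ∨ i = 4 ∨ i = 5 ∨ i = 6 ∨ i = 7 ∨ i = 8 := by
          revert i; decide
        rcases hi with rfl | rfl | rfl | rfl | rfl | rfl | rfl | rfl | rfl
        · exact ih
        · exact UM_triv _ (N + 1) 1 0 (by omega) (by omega) (by omega)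
        · exact UM_triv _ (N + 1) 1 0 (by omega) (by omega) (by omega)
        · exact UM_triv _ 1 1 0 (by omega) (by omega) (by omega)
        · exact hG.mono (by omega)
        · exact hG.mono (by omega)
        · exact hG.mono (by omega)
        · exact hG.mono (by omega)
        · exact UM_G2.mono (by omega))
    have e : (m + 1) * (4 * B + 4 * (N + 2) + 24) + 2 * (N + 3) = ∑ i, (![m * (4 * B + 4 * (N + 2) + 24)
        + 2 * (N + 3), 2 * (N + 1 + 1 + 0), 2 * (N + 1 + 1 + 0),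
        2 * (1 + 1 + 0), B, B, B, B, 20] : Fin 9 → ℕ) i := by
      simp [Fin.sum_univ_succ]
      ring
    rw [e]
    exact h1

theorem UM_GG (R : ℕ) : ∀ d, UM (GG R d) (d + 2) (d + 1) 1 (BB R d) (d + 2) := by
  intro d
  induction d with
  | zero => exact UM_G2.mono (by omega)
  | succ d ih => exact UM_chain ih R

end Pool.Agent.Y426.SCC
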